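import Pool.Agent.Helper92.Qc.FIBL

set_option autoImplicit false

/-! Module FIB2: sums over the fibres of type 2. -/

namespace Pool.Agent.Helper10.Qc

open Pool.Agent.Helper19.Qh Pool.Agent.Helper19.Qc

theorem fib2_ev {b a : Q} (ha : a ∈ HO) (hab : 2 * (a * star (rho 1)).re + ‖b‖ ^ 2 = 0) : EvN b := by
  obtain ⟨n, b', c, d, rfl⟩ := ha
  have h1 : (hq n b' c d * star (rho 1)).re = (n : ℝ) + b' := by
    have r0 : (rho 1).re = 1 := rfl
    have r1 : (rho 1).imI = 1 := rfl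
    have r2 : (rho 1).imJ = 0 := rfl
    have r3 : (rho 1).imK = 0 := rfl
    rw [Quaternion.re_mul, Quaternion.re_star, Quaternion.imI_star, Quaternion.imJ_star,
      Quaternion.imK_star, hq_re, hq_i, hq_j, hq_k, r0, r1, r2, r3]
    ring
  rw [h1] at hab
  have h3 : ‖b‖ ^ 2 = 2 * ((-(n + b') : ℤ) : ℝ) := by
    push_cast
    linarith
  have h4 : 0 ≤ (-(n + b') : ℤ) := by
    have h5 : 0 ≤ ‖b‖ ^ 2 := by positivity
    rw [h3] at h5
    have h6 : (0 : ℝ) ≤ ((-(n + b') : ℤ) : ℝ) := by linarith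
    exact_mod_cast h6
  obtain ⟨N, hN⟩ := Int.eq_ofNat_of_zero_le h4
  refine ⟨N, ?_⟩
  rw [h3, hN]
  push_cast
  ring

theorem fib2_two {a : Q} (ha : EvN a) (h0 : a ≠ 0) : 2 ≤ ‖a‖ ^ 2 := by
  obtain ⟨N, hN⟩ := ha
  have h1 : 0 < ‖a‖ ^ 2 := by
    have := norm_pos_iff.2 h0
    positivity
  rw [hN] at h1 ⊢
  have h2 : (0 : ℝ) < N := by linarith
  have h3 : 1 ≤ N := by exact_mod_cast h2
  have h4 : (1 : ℝ) ≤ N := by exact_mod_cast h3
  linarith

theorem st_FIB2 (h1 : ST_FG) (h2 : ST_C3) (h3 : ST_COL) (_h4 : ST_HZ) : ST_FIB2 := by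
  intro p hp b hb
  constructor
  · obtain ⟨col, hc1, hc2⟩ := h3
    have hh : 0 < hgt p := hp
    have hrho : rho 1 ≠ 0 := by
      intro h
      have h5 : (rho 1).re = 0 := by rw [h]; rfl
      have h6 : (rho 1).re = 1 := rfl
      rw [h6] at h5
      exact one_ne_zero h5
    have hbb : (rho 1)⁻¹ * (rho 1 * b) = b := inv_mul_cancel_left₀ hrho b
    have hterm : ∀ a : FibA 1 (rho 1 * b), F5 (uval (((a : Q), e1 (rho 1 * b), rho 1) : V 1) p) =
        ENNReal.ofReal ((max (Bv 2 (hgt p) (p.2 0) b - ‖fiblX p 1 (rho 1 * b) a‖ ^ 2) 0) ^ 2) *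
          ENNReal.ofReal (1 / hgt p ^ 2) := by
      intro a
      have h5 := fibl_term h1 hp 1 (rho 1 * b) a a.2.2.1
      rw [hbb] at h5
      exact h5
    rw [tsum_congr hterm, ENNReal.tsum_mul_right]
    have hcol : ∀ a : FibA 1 (rho 1 * b), col a ≠ 0 := by
      intro a h5
      exact a.2.2.2 rfl ((hc2 a a.2.1).1 h5)
    have hne : ∀ a a' : FibA 1 (rho 1 * b), a ≠ a' → (a : Q) - a' ≠ 0 := by
      intro a a' h h5
      exact h (Subtype.ext (sub_eq_zero.1 h5))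
    have hB : Bv 2 (hgt p) (p.2 0) b ≤ 1 := by
      unfold Bv
      have h5 : 0 ≤ ‖p.2 0 - b‖ ^ 2 := by positivity
      push_cast
      nlinarith [sq_nonneg (hgt p - 5 / 4), mul_nonneg hh.le h5, sq_nonneg (‖p.2 0 - b‖ ^ 2)]
    have h6 := h2 (FibA 1 (rho 1 * b)) (fun a => fiblX p 1 (rho 1 * b) a)
      (fun a => (col a).pred (hcol a)) (Bv 2 (hgt p) (p.2 0) b) hB
      (by
        intro a a' h
        rw [fibl_diff]
        have h7 := HO_norm (HO.sub_mem a.2.1 a'.2.1) (hne a a' h)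
        nlinarith)
      (by
        intro a a' h h7
        rw [fibl_diff]
        have h8 : col (a : Q) = col (a' : Q) := Fin.pred_inj.1 h7
        exact fib2_two (hc1 a a.2.1 a' a'.2.1 h8) (hne a a' h))
    calc _ ≤ ENNReal.ofReal (Psi 2 (Bv 2 (hgt p) (p.2 0) b)) * ENNReal.ofReal (1 / hgt p ^ 2) := by
          gcongr
      _ = ENNReal.ofReal (Psi 2 (Bv 2 (hgt p) (p.2 0) b) / hgt p ^ 2) := by
          rw [← ENNReal.ofReal_mul' (by positivity)]
          congr 1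
          ring
  · intro hne
    rw [Set.eq_empty_iff_forall_notMem]
    rintro a ⟨ha, hab, -⟩
    exact hne (fib2_ev ha hab)

end Pool.Agent.Helper10.Qc
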