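import Pool.Agent.Helper92.Qc.FIBL

set_option autoImplicit false

/-! Module N4: sums over the fibres of type 4. -/

namespace Pool.Agent.Helper10.Qc

open Pool.Agent.Helper19.Qh Pool.Agent.Helper19.Qc

theorem n4_ev {b a : Q} (ha : a ∈ HO) (hab : 2 * (a * star (rho 6)).re + ‖b‖ ^ 2 = 0) : EvN b := by
  obtain ⟨n, b', c, d, rfl⟩ := ha
  have h1 : (hq n b' c d * star (rho 6)).re = (n : ℝ) := by
    have r0 : (rho 6).re = 2 := rfl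
    have r1 : (rho 6).imI = 0 := rfl
    have r2 : (rho 6).imJ = 0 := rfl
    have r3 : (rho 6).imK = 0 := rfl
    rw [Quaternion.re_mul, Quaternion.re_star, Quaternion.imI_star, Quaternion.imJ_star,
      Quaternion.imK_star, hq_re, hq_i, hq_j, hq_k, r0, r1, r2, r3]
    ring
  rw [h1] at hab
  have h3 : ‖b‖ ^ 2 = 2 * ((-n : ℤ) : ℝ) := by
    push_cast
    linarith
  have h4 : 0 ≤ (-n : ℤ) := by
    have h5 : 0 ≤ ‖b‖ ^ 2 := by positivity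
    rw [h3] at h5
    have h6 : (0 : ℝ) ≤ ((-n : ℤ) : ℝ) := by linarith
    exact_mod_cast h6
  obtain ⟨N, hN⟩ := Int.eq_ofNat_of_zero_le h4
  refine ⟨N, ?_⟩
  rw [h3, hN]
  push_cast
  ring

theorem n4_rho (b : Q) : (rho 6)⁻¹ * b = (2 : ℝ)⁻¹ • b := by
  have h1 : rho 6 = ((2 : ℝ) : Q) := by
    apply Quaternion.ext
    · rw [Quaternion.re_coe]; rfl
    · rw [Quaternion.imI_coe]; rfl
    · rw [Quaternion.imJ_coe]; rfl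
    · rw [Quaternion.imK_coe]; rfl
  rw [h1, ← Quaternion.coe_inv, Quaternion.coe_mul_eq_smul]

/-- a fibre -/
theorem n4_fib (h1 : ST_FG) (h2 : ST_C1) {p : Pt 1} (hp : p ∈ SD 1) (hh : 1 ≤ hgt p) (b : Q) :
    ∑' a : FibA 6 b, F5 (uval (((a : Q), e1 b, rho 6) : V 1) p) ≤
      ENNReal.ofReal ((max (Bv 4 (hgt p) (p.2 0) ((2 : ℝ)⁻¹ • b)) 0) ^ 2) *
        ENNReal.ofReal (1 / hgt p ^ 2) := by
  have hterm : ∀ a : FibA 6 b, F5 (uval (((a : Q), e1 b, rho 6) : V 1) p) =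
      ENNReal.ofReal ((max (Bv 4 (hgt p) (p.2 0) ((2 : ℝ)⁻¹ • b) - ‖fiblX p 6 b a‖ ^ 2) 0) ^ 2) *
        ENNReal.ofReal (1 / hgt p ^ 2) := by
    intro a
    have h5 := fibl_term h1 hp 6 b a a.2.2.1
    rw [n4_rho] at h5
    exact h5
  rw [tsum_congr hterm, ENNReal.tsum_mul_right]
  have hB : Bv 4 (hgt p) (p.2 0) ((2 : ℝ)⁻¹ • b) ≤ 1 / 2 := by
    unfold Bv
    have h5 : 0 ≤ ‖p.2 0 - (2 : ℝ)⁻¹ • b‖ ^ 2 := by positivity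
    push_cast
    nlinarith [mul_nonneg (zero_le_one.trans hh) h5, sq_nonneg (‖p.2 0 - (2 : ℝ)⁻¹ • b‖ ^ 2)]
  have h6 := h2 (FibA 6 b) (fun a => fiblX p 6 b a) _ hB
    (by
      intro a a' h
      rw [fibl_diff]
      have h8 : (a : Q) - a' ≠ 0 := fun h5 => h (Subtype.ext (sub_eq_zero.1 h5))
      have h7 := HO_norm (HO.sub_mem a.2.1 a'.2.1) h8
      nlinarith)
  gcongr

theorem n4_close {h : ℝ} (hh : 1 ≤ h) {ζ b b' : Q}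
    (hb : 0 < Bv 4 h ζ ((2 : ℝ)⁻¹ • b)) (hb' : 0 < Bv 4 h ζ ((2 : ℝ)⁻¹ • b')) :
    ‖b - b'‖ ^ 2 < 2 := by
  have key : ∀ r : ℝ, 0 ≤ r → 0 < 5 / 4 * h - 4 * (h + r) ^ 2 / 4 → r < 12 / 100 := by
    intro r hr h1
    by_contra hcon
    push Not at hcon
    nlinarith [mul_nonneg (sub_nonneg.2 hh) (sub_nonneg.2 hcon), sq_nonneg (h - 1),
      mul_nonneg (sub_nonneg.2 hcon) (sub_nonneg.2 hcon)]
  unfold Bv at hb hb'
  push_cast at hb hb'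
  have k1 := key _ (sq_nonneg ‖ζ - (2 : ℝ)⁻¹ • b‖) hb
  have k2 := key _ (sq_nonneg ‖ζ - (2 : ℝ)⁻¹ • b'‖) hb'
  have h3 : (2 : ℝ)⁻¹ • (b - b') = (ζ - (2 : ℝ)⁻¹ • b') - (ζ - (2 : ℝ)⁻¹ • b) := by
    rw [smul_sub]
    abel
  have h4 : ‖(2 : ℝ)⁻¹ • (b - b')‖ ≤ ‖ζ - (2 : ℝ)⁻¹ • b'‖ + ‖ζ - (2 : ℝ)⁻¹ • b‖ := by
    rw [h3]
    exact norm_sub_le _ _
  rw [norm_smul, norm_inv, Real.norm_ofNat] at h4
  have h5 : ‖b - b'‖ ≤ 2 * (‖ζ - (2 : ℝ)⁻¹ • b'‖ + ‖ζ - (2 : ℝ)⁻¹ • b‖) := by linarith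
  have h6 : ‖b - b'‖ ^ 2 ≤ (2 * (‖ζ - (2 : ℝ)⁻¹ • b'‖ + ‖ζ - (2 : ℝ)⁻¹ • b‖)) ^ 2 :=
    pow_le_pow_left₀ (norm_nonneg _) h5 2
  nlinarith [sq_nonneg (‖ζ - (2 : ℝ)⁻¹ • b'‖ - ‖ζ - (2 : ℝ)⁻¹ • b‖)]

theorem st_N4 (h1 : ST_FG) (h2 : ST_C1) (h3 : ST_COL) : ST_N4 := by
  intro p hp hh
  obtain ⟨col, hc1, hc2⟩ := h3
  have hh0 : 0 < hgt p := hp
  set g : HO → ENNReal := fun b => ∑' a : FibA 6 (b : Q), F5 (uval (((a : Q), e1 (b : Q), rho 6) : V 1) p)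
    with hg
  have hg1 : ∀ b : HO, g b ≠ 0 → EvN (b : Q) := by
    intro b hb
    by_contra hcon
    apply hb
    rw [hg]
    simp only
    rw [ENNReal.tsum_eq_zero]
    intro a
    exact absurd (n4_ev a.2.1 a.2.2.1) hcon
  have hg2 : ∀ b : HO, g b ≠ 0 → 0 < Bv 4 (hgt p) (p.2 0) ((2 : ℝ)⁻¹ • (b : Q)) := by
    intro b hb
    by_contra hcon
    push Not at hcon
    apply hb
    have h4 := n4_fib h1 h2 hp hh (b : Q)
    rw [max_eq_right hcon] at h4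
    have h5 : ENNReal.ofReal ((0 : ℝ) ^ 2) = 0 := by simp
    rw [h5, zero_mul] at h4
    exact le_antisymm h4 (zero_le)
  have hg3 : ∀ b : HO, g b ≤ ENNReal.ofReal (1 / (16 * hgt p ^ 2)) := by
    intro b
    refine (n4_fib h1 h2 hp hh (b : Q)).trans ?_
    rw [← ENNReal.ofReal_mul (sq_nonneg _)]
    apply ENNReal.ofReal_le_ofReal
    have h5 : Bv 4 (hgt p) (p.2 0) ((2 : ℝ)⁻¹ • (b : Q)) ≤ 1 / 4 := by
      unfold Bv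
      have h5 : 0 ≤ ‖p.2 0 - (2 : ℝ)⁻¹ • (b : Q)‖ ^ 2 := by positivity
      push_cast
      nlinarith [mul_nonneg hh0.le h5, sq_nonneg (‖p.2 0 - (2 : ℝ)⁻¹ • (b : Q)‖ ^ 2)]
    have h6 : max (Bv 4 (hgt p) (p.2 0) ((2 : ℝ)⁻¹ • (b : Q))) 0 ≤ 1 / 4 := max_le h5 (by norm_num)
    have h7 : 0 ≤ max (Bv 4 (hgt p) (p.2 0) ((2 : ℝ)⁻¹ • (b : Q))) 0 := le_max_right _ _
    have h8 : (max (Bv 4 (hgt p) (p.2 0) ((2 : ℝ)⁻¹ • (b : Q))) 0) ^ 2 ≤ 1 / 16 := by nlinarith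
    calc _ ≤ 1 / 16 * (1 / hgt p ^ 2) := by gcongr
      _ = 1 / (16 * hgt p ^ 2) := by
        rw [one_div_mul_one_div]
  have hg4 : ∀ b b' : HO, g b ≠ 0 → g b' ≠ 0 → b = b' := by
    intro b b' hb hb'
    have e1' := (hc2 b b.2).2 (hg1 b hb)
    have e2' := (hc2 b' b'.2).2 (hg1 b' hb')
    obtain ⟨N, hN⟩ := hc1 b b.2 b' b'.2 (e1'.trans e2'.symm)
    have h5 := n4_close hh (hg2 b hb) (hg2 b' hb')
    rw [hN] at h5
    have h6 : (N : ℝ) < 1 := by linarith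
    have h7 : N < 1 := by exact_mod_cast h6
    have h8 : N = 0 := by omega
    rw [h8] at hN
    have h9 : ‖(b : Q) - b'‖ = 0 := by
      have h10 : ‖(b : Q) - b'‖ ^ 2 = 0 := by rw [hN]; simp
      exact pow_eq_zero_iff (two_ne_zero) |>.1 h10
    exact Subtype.ext (sub_eq_zero.1 (norm_eq_zero.1 h9))
  change ∑' b : HO, g b ≤ _
  by_cases hex : ∃ b0 : HO, g b0 ≠ 0
  · obtain ⟨b0, hb0⟩ := hex
    rw [tsum_eq_single b0]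
    · exact hg3 b0
    · intro b' hb'
      by_contra hcon
      exact hb' (hg4 b' b0 hcon hb0)
  · push Not at hex
    have h5 : ∑' b : HO, g b = 0 := by
      rw [ENNReal.tsum_eq_zero]
      exact hex
    rw [h5]
    exact zero_le

end Pool.Agent.Helper10.Qc
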