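import Pool.Agent.Helper10.Qc.Stmts

set_option autoImplicit false

/-! Module RED: every point is equivalent to a reduced point. -/

namespace Pool.Agent.Helper10.Qc

open Pool.Agent.Helper19.Qh Pool.Agent.Helper19.Qc

theorem red_top {p : Pt 1} (hp : p ∈ SD 1) : ∃ g ∈ Gam MO, Top (act g p) := by
  obtain ⟨g, hg, htop⟩ := exists_top hp
  have hq : act g p ∈ SD 1 := act_mem hg.1 hp
  refine ⟨g, hg, hq, ?_⟩
  rintro w ⟨γ, hγ, rfl⟩
  have hγi := (Gam MO).inv_mem hγ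
  have hr : act γ⁻¹ (act g p) ∈ SD 1 := act_mem hγi.1 hq
  have h2 : uval (γ w0) (act g p) = uval w0 (act γ⁻¹ (act g p)) := by
    have h3 := uval_act hγi.1 (w0 : V 1) hq
    rw [inv_inv] at h3
    exact h3.symm
  rw [h2, uval_w0]
  have h4 := htop γ⁻¹ hγi
  have h5 : 0 < hgt (act γ⁻¹ (act g p)) := hr
  exact one_div_le_one_div_of_le h5 h4

theorem st_RED (h1 : ST_DOMR) (h2 : ST_DIAG) (h3 : ST_TOPI) : ST_RED := by
  intro p hp
  obtain ⟨g, hg, htop⟩ := red_top hp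
  have hqS : act g p ∈ SD 1 := act_mem hg.1 hp
  obtain ⟨b, hb, u, hu, v, hv, hu1, hv1, hdom⟩ := h1 ((act g p).2 0)
  obtain ⟨N, hN⟩ := HO_norm_sq hb
  set a : Q := hq (-N) 0 0 0 with ha
  have haH : a ∈ HO := hq_mem _ _ _ _
  have hNO : NO a (e1 b) := by
    refine ⟨haH, hb, ?_⟩
    rw [e1_norm, hN, ha, hq_re]
    push_cast
    ring
  have hT := T_MO hNO
  have hr : act (T a (e1 b)) (act g p) ∈ SD 1 := act_mem hT.1 hqS
  have hh : hgt (act (T a (e1 b)) (act g p)) = hgt (act g p) := hgt_T hNO.2.2 _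
  have htop2 : Top (act (T a (e1 b)) (act g p)) := h3 _ hT _ hh htop
  have hr2 : (act (T a (e1 b)) (act g p)).2 0 = (act g p).2 0 + b := by
    rw [act_T]
    rfl
  obtain ⟨g', hg', -, hact⟩ := h2 u hu v hv hu1 hv1
  obtain ⟨hact1, hact2⟩ := hact _ hr
  have htop3 : Top (act g' (act (T a (e1 b)) (act g p))) := h3 _ hg' _ hact2 htop2
  have hTg : T a (e1 b) * g ∈ Gam MO := (Gam MO).mul_mem hT hg
  refine ⟨g' * (T a (e1 b) * g), (Gam MO).mul_mem hg' hTg, ?_⟩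
  have e1' : act (g' * (T a (e1 b) * g)) p = act g' (act (T a (e1 b)) (act g p)) := by
    rw [act_mul g' hTg.1 hp, act_mul (T a (e1 b)) hg.1 hp]
  rw [e1']
  refine ⟨htop3, ?_⟩
  rw [hact1]
  change Dom (star u * (act (T a (e1 b)) (act g p)).2 0 * v)
  rw [hr2]
  exact hdom

end Pool.Agent.Helper10.Qc
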