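import Pool.Agent.Helper10.Qc.Stmts

set_option autoImplicit false

/-! Common lemmas of the modules FIB2 and N4. -/

namespace Pool.Agent.Helper10.Qc

open Pool.Agent.Helper19.Qh Pool.Agent.Helper19.Qc

/-- the shifted product of the point and the cusp vector -/
noncomputable def fiblX (p : Pt 1) (i : Fin 7) (b a : Q) : Q :=
  herm (vec p) ((a, e1 b, rho i) : V 1) +
      ((hgt p + ‖p.2 0 - (rho i)⁻¹ * b‖ ^ 2) / 2) • star (rho i)

theorem fibl_diff (p : Pt 1) (i : Fin 7) (b a a' : Q) :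
    ‖fiblX p i b a - fiblX p i b a'‖ = ‖a - a'‖ := by
  have h : fiblX p i b a - fiblX p i b a' = star (a - a') := by
    unfold fiblX herm vec
    simp only [one_mul, star_sub]
    abel
  rw [h]
  exact norm_star (a - a')

theorem fibl_term (h1 : ST_FG) {p : Pt 1} (hp : p ∈ SD 1) (i : Fin 7) (b a : Q)
    (hab : 2 * (a * star (rho i)).re + ‖b‖ ^ 2 = 0) :
    F5 (uval ((a, e1 b, rho i) : V 1) p) =
      ENNReal.ofReal ((max (Bv (rN i) (hgt p) (p.2 0) ((rho i)⁻¹ * b) - ‖fiblX p i b a‖ ^ 2) 0) ^ 2) *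
        ENNReal.ofReal (1 / hgt p ^ 2) := by
  have hh : 0 < hgt p := hp
  have h2 := h1 p i b a hab
  have h3 : 5 / 4 - uval ((a, e1 b, rho i) : V 1) p =
      (Bv (rN i) (hgt p) (p.2 0) ((rho i)⁻¹ * b) - ‖fiblX p i b a‖ ^ 2) / hgt p := by
    unfold uval Bv fiblX
    rw [h2]
    field_simp
    ring
  unfold F5
  rw [h3, ← ENNReal.ofReal_mul (sq_nonneg _)]
  have h4 := max_div_div_right hh.le
    (Bv (rN i) (hgt p) (p.2 0) ((rho i)⁻¹ * b) - ‖fiblX p i b a‖ ^ 2) 0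
  rw [zero_div] at h4
  rw [h4, div_pow]
  congr 1
  ring

end Pool.Agent.Helper10.Qc
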